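import Pool.Agent.helper91.RB.Spec1

/-!
# Generators (row rb:GEN)
-/

set_option autoImplicit false

namespace Pool.Agent.RB

open NumberField NumberField.InfinitePlace NumberField.Units NumberField.Units.dirichletUnitTheorem
open MeasureTheory Filter Topology Module
open scoped nonZeroDivisors Real Classical

/-- **GEN**: the nonzero elements of `J` and the ideals in the class of `J⁻¹`. -/
theorem GEN : GEN_stmt := by
  intro K _ _ J hJ
  have hg : ∀ I : IJ K J, ∃ x : K, x ≠ 0 ∧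
      ((I : Ideal (𝓞 K)) : FI K) * J = FractionalIdeal.spanSingleton (𝓞 K)⁰ x := fun I => I.2.2
  choose g hg0 hgI using hg
  -- the map from the pairs
  have hmem : ∀ p : IJ K J × (𝓞 K)ˣ, ((p.2 : K) * g p.1) ∈ (J : Submodule (𝓞 K) K) ∧
      ((p.2 : K) * g p.1) ≠ 0 := by
    rintro ⟨I, u⟩
    have h1 : g I ∈ J := by
      rw [← FractionalIdeal.spanSingleton_le_iff_mem, ← hgI I]
      calc ((I : Ideal (𝓞 K)) : FI K) * J ≤ 1 * J :=
            mul_le_mul_left (FractionalIdeal.coeIdeal_le_one) J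
        _ = J := one_mul J
    refine ⟨?_, mul_ne_zero (by simp) (hg0 I)⟩
    have h2 := (J : Submodule (𝓞 K) K).smul_mem (u : 𝓞 K) h1
    rw [Algebra.smul_def] at h2
    exact h2
  let f : IJ K J × (𝓞 K)ˣ → {x : K // x ∈ (J : Submodule (𝓞 K) K) ∧ x ≠ 0} :=
    fun p => ⟨(p.2 : K) * g p.1, hmem p⟩
  have hspan : ∀ p : IJ K J × (𝓞 K)ˣ, FractionalIdeal.spanSingleton (𝓞 K)⁰ ((f p : K)) =
      ((p.1 : Ideal (𝓞 K)) : FI K) * J := by
    rintro ⟨I, u⟩
    rw [hgI I, FractionalIdeal.spanSingleton_eq_spanSingleton]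
    refine ⟨u⁻¹, ?_⟩
    show u⁻¹ • ((u : K) * g I) = g I
    rw [Units.smul_def, Algebra.smul_def, ← mul_assoc]
    have h3 : (algebraMap (𝓞 K) K) ((u⁻¹ : (𝓞 K)ˣ) : 𝓞 K) * (u : K) = 1 := by
      have h4 : (algebraMap (𝓞 K) K) ((u⁻¹ : (𝓞 K)ˣ) : 𝓞 K) * (algebraMap (𝓞 K) K) (u : 𝓞 K) = 1 := by
        rw [← map_mul, Units.inv_mul, map_one]
      exact h4
    rw [h3, one_mul]
  have hf : Function.Bijective f := by
    constructor
    · rintro ⟨I, u⟩ ⟨I', u'⟩ h
      have h1 := hspan (I, u)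
      rw [h, hspan (I', u')] at h1
      have h2 : ((I' : Ideal (𝓞 K)) : FI K) = ((I : Ideal (𝓞 K)) : FI K) :=
        mul_right_cancel₀ hJ h1
      have h3 : (I' : Ideal (𝓞 K)) = (I : Ideal (𝓞 K)) := FractionalIdeal.coeIdeal_injective h2
      have h4 : I' = I := Subtype.ext h3
      subst h4
      have h5 : (u : K) * g I' = (u' : K) * g I' := congrArg Subtype.val h
      have h6 : (u : K) = (u' : K) := mul_right_cancel₀ (hg0 I') h5
      have h7 : u = u' := by
        apply Units.ext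
        exact RingOfIntegers.coe_injective h6
      rw [h7]
    · rintro ⟨x, hx, hx0⟩
      have h1 : FractionalIdeal.spanSingleton (𝓞 K)⁰ x * J⁻¹ ≤ 1 := by
        calc FractionalIdeal.spanSingleton (𝓞 K)⁰ x * J⁻¹ ≤ J * J⁻¹ :=
              mul_le_mul_left (FractionalIdeal.spanSingleton_le_iff_mem.2 hx) J⁻¹
          _ = 1 := mul_inv_cancel₀ hJ
      obtain ⟨I, hI⟩ := FractionalIdeal.le_one_iff_exists_coeIdeal.1 h1
      have h2 : (I : FI K) * J = FractionalIdeal.spanSingleton (𝓞 K)⁰ x := by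
        rw [hI, mul_assoc, inv_mul_cancel₀ hJ, mul_one]
      have hIne : I ≠ ⊥ := by
        rintro rfl
        rw [FractionalIdeal.coeIdeal_bot, zero_mul] at h2
        exact hx0 (FractionalIdeal.spanSingleton_eq_zero_iff.1 h2.symm)
      let I' : IJ K J := ⟨I, hIne, x, hx0, h2⟩
      have h3 := hgI I'
      have h4 : FractionalIdeal.spanSingleton (𝓞 K)⁰ (g I') =
          FractionalIdeal.spanSingleton (𝓞 K)⁰ x := by
        rw [← h3]
        exact h2
      obtain ⟨u, hu⟩ := FractionalIdeal.spanSingleton_eq_spanSingleton.1 h4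
      refine ⟨(I', u), Subtype.ext ?_⟩
      show (u : K) * g I' = x
      rw [← hu, Units.smul_def, Algebra.smul_def]
  refine ⟨g, (Equiv.ofBijective f hf).symm, fun x => ?_, hg0, fun I => ?_⟩
  · have h1 := (Equiv.ofBijective f hf).apply_symm_apply x
    exact (congrArg Subtype.val h1).symm
  · have h1 := congrArg FractionalIdeal.absNorm (hgI I)
    rw [map_mul, FractionalIdeal.coeIdeal_absNorm, FractionalIdeal.absNorm_span_singleton] at h1
    rw [InfinitePlace.prod_eq_abs_norm]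
    rw [← h1]
    push_cast
    rfl

end Pool.Agent.RB
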