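import Pool.Agent.helper91.RB.Spec3

/-!
# Row rb:IDB
-/

set_option autoImplicit false

namespace Pool.Agent.RB

open NumberField IsDedekindDomain Module
open scoped nonZeroDivisors Real Classical

/-- the positive part of a divisor -/
noncomputable def IDB_pos {K : Type} [Field K] [NumberField K] (D : Dv K) : Dv K :=
  D.mapRange (fun z => max z 0) (max_self 0)

theorem IDB_pos_apply {K : Type} [Field K] [NumberField K] (D : Dv K) (P : HOS K) :
    IDB_pos D P = max (D P) 0 := by
  unfold IDB_pos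
  rw [Finsupp.mapRange_apply]

theorem IDB_pos_sub {K : Type} [Field K] [NumberField K] {c : K ≃+* K} {W : Set (HOS K)} {D : Dv K}
    (hD : D ∈ DV c W) (P : HOS K) : IDB_pos D P - IDB_pos D (act c P) = D P := by
  rw [IDB_pos_apply, IDB_pos_apply, hD.2 P]
  rcases le_total (D P) 0 with h | h
  · rw [max_eq_right h, max_eq_left (neg_nonneg.2 h)]; ring
  · rw [max_eq_left h, max_eq_right (neg_nonpos.2 h)]; ring

/-- the class of the positive part -/
noncomputable def IDB_hom {K : Type} [Field K] [NumberField K] (c : K ≃+* K) (W : Set (HOS K)) :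
    (DV c W) →+ (Dv K ⧸ (Pr K ⊔ Inv c)) :=
  AddMonoidHom.mk' (fun D => (QuotientAddGroup.mk (IDB_pos (D : Dv K)) : Dv K ⧸ (Pr K ⊔ Inv c))) (by
    intro D E
    rw [← QuotientAddGroup.mk_add, QuotientAddGroup.eq]
    refine AddSubgroup.mem_sup_right ?_
    intro P
    have h1 := IDB_pos_sub (DV c W |>.add_mem D.2 E.2) P
    have h2 := IDB_pos_sub D.2 P
    have h3 := IDB_pos_sub E.2 P
    rw [Finsupp.add_apply] at h1
    show (-IDB_pos ((D : Dv K) + (E : Dv K)) + (IDB_pos (D : Dv K) + IDB_pos (E : Dv K))) (act c P) =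
      (-IDB_pos ((D : Dv K) + (E : Dv K)) + (IDB_pos (D : Dv K) + IDB_pos (E : Dv K))) P
    simp only [Finsupp.add_apply, Finsupp.neg_apply]
    linarith)

/-- **Row IDB**. -/
theorem IDB (hORD : ORD_stmt) (hCCJ : CCJ_stmt) : IDB_stmt := by
  intro k K _ _ _ _ _ _ _ _ c hc hck W
  obtain ⟨-, hcc, -, -⟩ := hCCJ k K c hc hck
  obtain ⟨-, -, -, -, -, hact, hrefl, htrans, -⟩ := hORD K
  have hPP : ∀ P : HOS K, act c (act c P) = P := by
    intro P
    rw [← htrans, show c.trans c = RingEquiv.refl K from RingEquiv.ext hcc, hrefl]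
  constructor
  · rintro D ⟨x, ⟨hx1, hx2, -⟩, hx4⟩
    refine ⟨fun P hP => by rw [hx4, hx2 P hP], fun P => ?_⟩
    rw [hx4, hx4]
    have h1 := (hact c P (x : K)).2
    have h2 : c (x : K) = (x : K)⁻¹ := eq_inv_of_mul_eq_one_right hx1
    rw [h2, ord_inv] at h1
    linarith
  · have hker : (IDB_hom c W).ker ≤ (dM c W ∅).addSubgroupOf (DV c W) := by
      intro D hD
      rw [AddMonoidHom.mem_ker] at hD
      have h1 : IDB_pos (D : Dv K) ∈ Pr K ⊔ Inv c := (QuotientAddGroup.eq_zero_iff _).1 hD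
      obtain ⟨Y, ⟨y, hy0, hy⟩, E, hE, hYE⟩ := AddSubgroup.mem_sup.1 h1
      have hcy : c y ≠ 0 := (map_ne_zero c).2 hy0
      have hord : ∀ P : HOS K, ord P (c y) = ord (act c P) y := by
        intro P
        have h2 := (hact c (act c P) y).2
        rw [hPP] at h2
        exact h2
      have hDP : ∀ P : HOS K, (D : Dv K) P = ord P (y * (c y)⁻¹) := by
        intro P
        rw [ord_mul P hy0 (inv_ne_zero hcy), ord_inv, hord, ← IDB_pos_sub D.2 P, ← hYE,
          Finsupp.add_apply, Finsupp.add_apply, hy, hy, hE P]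
        ring
      rw [AddSubgroup.mem_addSubgroupOf]
      refine ⟨Units.mk0 (y * (c y)⁻¹) (mul_ne_zero hy0 (inv_ne_zero hcy)), ⟨?_, ?_, ?_⟩, ?_⟩
      · rw [Units.val_mk0, map_mul, map_inv₀, hcc]
        field_simp
      · intro P hP
        rw [Units.val_mk0, ← hDP]
        exact D.2.1 P hP
      · intro P hP
        exact absurd hP (Set.notMem_empty P)
      · intro P
        rw [Units.val_mk0]
        exact hDP P
    have h1 : (dM c W ∅).relIndex (DV c W) ∣ (IDB_hom c W).ker.index :=
      AddSubgroup.index_dvd_of_le hker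
    refine h1.trans ?_
    rw [AddSubgroup.index_ker]
    exact AddSubgroup.card_addSubgroup_dvd_card _

end Pool.Agent.RB
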